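import Mathlib
import Pool.Graph.R_pool_sql_team_seeded_ab47071d.TH56.TO.Line

set_option autoImplicit false
set_option linter.unusedSectionVars false

/-!
# Groups of perspectivities with a common axis
-/

namespace Pool.Agent.H180.Pp

open Configuration Configuration.ProjectivePlane Finset MulAction Pool.Agent.H634R3.PPC
  Pool.Agent.H634R3.WG Pool.Agent.TH56.TO

section

variable {G P L : Type} [Group G] [Membership P L] [MulAction G P] [MulAction G L]

theorem col_sub (hC : Col G P L) (H : Subgroup G) : Col H P L where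
  inc := fun g p l => hC.inc g.1 p l
  ff := fun g hg => Subtype.ext (hC.ff g.1 hg)

end

section

variable {G P L : Type} [Group G] [Finite G] [Fintype P] [Fintype L] [Membership P L]
  [ProjectivePlane P L] [MulAction G P] [MulAction G L]

/-- off the axis -/
theorem off_axis {l : L} (hax : ∀ (g : G) (p : P), p ∈ l → g • p = p) {z : P} (hz : z ∉ l)
    (k : G) : k • z ∉ l := by
  intro h
  have h1 := hax k⁻¹ _ h
  rw [inv_smul_smul] at h1
  exact hz (h1 ▸ h)

/-- the centres off the axis -/
def Cen (G : Type) {P L : Type} [Group G] [Membership P L] [MulAction G P] (l : L)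
    (hax : ∀ (g : G) (p : P), p ∈ l → g • p = p) : SubMulAction G P where
  carrier := {z | z ∉ l ∧ ∃ g : G, g ≠ 1 ∧ g • z = z}
  smul_mem' := by
    rintro k z ⟨hz, g, hg, hgz⟩
    refine ⟨?_, k * g * k⁻¹, ?_, ?_⟩
    · intro h
      have h1 := hax k⁻¹ _ h
      rw [inv_smul_smul] at h1
      exact hz (h1 ▸ h)
    · intro h
      exact hg (conj_eq_one_iff.1 h)
    · rw [mul_smul, mul_smul, inv_smul_smul, hgz]

theorem centre_unique (hC : Col G P L) {l : L} (hax : ∀ (g : G) (p : P), p ∈ l → g • p = p)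
    {g : G} (hg : g ≠ 1) {z w : P} (hz : z ∉ l) (hw : w ∉ l) (h1 : g • z = z) (h2 : g • w = w) :
    z = w := by
  obtain ⟨c, hc⟩ := TaskAxis.taskAxis G P L hC g l (hax g)
  obtain ⟨f1, -⟩ := TaskFix.taskFix G P L hC g c l hc hg
  have h3 := (f1 z h1).resolve_right hz
  have h4 := (f1 w h2).resolve_right hw
  rw [h3, h4]

/-- homologies: the order of the group is the product of the order of the group of elations and of
the order of a group of homologies -/
theorem hom_stab (hC : Col G P L) {l : L} (hax : ∀ (g : G) (p : P), p ∈ l → g • p = p)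
    {c₀ : P} (h₀ : c₀ ∈ l) (hE : ∃ g : G, g ∉ EA hC l c₀ h₀) :
    ∃ z : P, z ∉ l ∧ Nat.card (stabilizer G z) * Nat.card (EA hC l c₀ h₀) = Nat.card G := by
  classical
  have i1 : Fintype G := Fintype.ofFinite G
  set E := EA hC l c₀ h₀ with hEdef
  set Ω : SubMulAction G P := Cen G l hax with hΩ
  have i2 : Fintype Ω := Fintype.ofFinite _
  have i3 : Fintype (orbitRel.Quotient G Ω) := Fintype.ofFinite _
  -- fixed points
  have hfix0 : ∀ g : G, g ≠ 1 → g ∈ E → Fintype.card (fixedBy Ω g) = 0 := by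
    intro g hg hgE
    rw [Fintype.card_eq_zero_iff]
    constructor
    rintro ⟨⟨z, hz, hz2⟩, hgz⟩
    have hgz' : g • z = z := congrArg Subtype.val hgz
    obtain ⟨c, hc, hP⟩ := mem_EA hC |>.1 hgE
    exact hg (TaskCount.fix_mem TaskFix.taskFix hC hc hP hz hgz')
  have hfix1 : ∀ g : G, g ∉ E → Fintype.card (fixedBy Ω g) = 1 := by
    intro g hgE
    have hg : g ≠ 1 := fun h => hgE (h ▸ E.one_mem)
    obtain ⟨c, hc⟩ := TaskAxis.taskAxis G P L hC g l (hax g)
    obtain ⟨f1, f2, f3, f4⟩ := TaskFix.taskFix G P L hC g c l hc hg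
    have hcl : c ∉ l := fun h => hgE ((mem_EA hC).2 ⟨c, h, hc⟩)
    rw [Fintype.card_eq_one_iff]
    refine ⟨⟨⟨c, hcl, g, hg, f3⟩, Subtype.ext f3⟩, ?_⟩
    rintro ⟨⟨z, hz, hz2⟩, hgz⟩
    have hgz' : g • z = z := congrArg Subtype.val hgz
    apply Subtype.ext
    apply Subtype.ext
    exact (f1 z hgz').resolve_right hz
  have hone : Fintype.card (fixedBy Ω (1 : G)) = Fintype.card Ω := by
    refine Fintype.card_congr ⟨fun x => x.1, fun x => ⟨x, one_smul _ _⟩, fun _ => rfl, fun _ => rfl⟩
  have hb := MulAction.sum_card_fixedBy_eq_card_orbits_mul_card_group G Ω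
  have hsum : ∑ g : G, Fintype.card (fixedBy Ω g) =
      Fintype.card Ω + (univ.filter (fun g : G => g ∉ E)).card := by
    rw [← Finset.add_sum_erase _ _ (Finset.mem_univ (1 : G)), hone, Finset.card_eq_sum_ones,
      Finset.sum_filter]
    congr 1
    rw [← Finset.add_sum_erase (a := (1 : G)) univ (fun a => if a ∉ E then 1 else 0)
      (Finset.mem_univ (1 : G))]
    rw [if_neg (by simp), zero_add]
    refine Finset.sum_congr rfl fun g hg => ?_
    rw [Finset.mem_erase] at hg
    by_cases hgE : g ∈ E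
    · rw [hfix0 g hg.1 hgE, if_neg (by simpa using hgE)]
    · rw [hfix1 g hgE, if_pos hgE]
  have hcE : (univ.filter (fun g : G => g ∉ E)).card + Nat.card E = Fintype.card G := by
    rw [Nat.card_eq_fintype_card, Fintype.card_subtype, add_comm,
      Finset.card_filter_add_card_filter_not, Finset.card_univ]
  -- the number of centres
  have hle : Fintype.card Ω ≤ (univ.filter (fun g : G => g ∉ E)).card := by
    rw [← Fintype.card_subtype]
    have hch : ∀ z : Ω, ∃ g : G, g ≠ 1 ∧ g • z.1 = z.1 := fun z => z.2.2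
    choose f hf1 hf2 using hch
    refine Fintype.card_le_of_injective (fun z => (⟨f z, ?_⟩ : {g : G // g ∉ E})) ?_
    · intro h
      obtain ⟨c, hc, hP⟩ := (mem_EA hC).1 h
      exact hf1 z (TaskCount.fix_mem TaskFix.taskFix hC hc hP z.2.1 (hf2 z))
    · intro z w hzw
      have h1 : f z = f w := congrArg Subtype.val hzw
      apply Subtype.ext
      exact centre_unique hC hax (hf1 z) z.2.1 w.2.1 (hf2 z) (h1 ▸ hf2 w)
  obtain ⟨g0, hg0⟩ := hE
  have hg01 : g0 ≠ 1 := fun h => hg0 (h ▸ E.one_mem)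
  obtain ⟨c, hc⟩ := TaskAxis.taskAxis G P L hC g0 l (hax g0)
  obtain ⟨-, -, f3, -⟩ := TaskFix.taskFix G P L hC g0 c l hc hg01
  have hcl : c ∉ l := fun h => hg0 ((mem_EA hC).2 ⟨c, h, hc⟩)
  let z0 : Ω := ⟨c, hcl, g0, hg01, f3⟩
  have hEpos : 0 < Nat.card E := Nat.card_pos
  rw [hsum] at hb
  have hq : Fintype.card (orbitRel.Quotient G Ω) = 1 := by
    have h1 : 0 < Fintype.card (orbitRel.Quotient G Ω) :=
      Fintype.card_pos_iff.2 ⟨Quotient.mk _ z0⟩
    by_contra h2
    have h3 : 2 ≤ Fintype.card (orbitRel.Quotient G Ω) := by omega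
    have h4 : 2 * Fintype.card G ≤ Fintype.card (orbitRel.Quotient G Ω) * Fintype.card G :=
      Nat.mul_le_mul_right _ h3
    have h5 : Fintype.card (Quotient (orbitRel G Ω)) = Fintype.card (orbitRel.Quotient G Ω) := rfl
    rw [h5] at hb
    omega
  have hcard : Fintype.card Ω = Nat.card E := by
    have h5 : Fintype.card (Quotient (orbitRel G Ω)) = 1 := hq
    rw [h5, one_mul] at hb
    omega
  refine ⟨c, hcl, ?_⟩
  have hsub : Subsingleton (orbitRel.Quotient G Ω) := Fintype.card_le_one_iff_subsingleton.1 hq.le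
  have horb : orbit G z0 = Set.univ := by
    rw [Set.eq_univ_iff_forall]
    intro w
    have : (Quotient.mk (orbitRel G Ω) w) = Quotient.mk (orbitRel G Ω) z0 :=
      Subsingleton.elim (α := orbitRel.Quotient G Ω) _ _
    exact Quotient.exact this
  have h6 : Nat.card (orbit G z0) * Nat.card (stabilizer G z0) = Nat.card G := by
    rw [← Nat.card_prod]
    exact Nat.card_congr (orbitProdStabilizerEquivGroup G z0)
  rw [horb, Nat.card_congr (Equiv.Set.univ Ω), Nat.card_eq_fintype_card (α := Ω), hcard] at h6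
  have h7 : stabilizer G z0 = stabilizer G c := by
    ext g
    rw [mem_stabilizer_iff, mem_stabilizer_iff]
    constructor
    · intro h
      exact congrArg Subtype.val h
    · intro h
      exact Subtype.ext h
  rw [← h7, mul_comm]
  exact h6

/-- the elations with axis `l` form a normal subgroup -/
theorem EA_normal (hC : Col G P L) {l : L} (hax : ∀ (g : G) (p : P), p ∈ l → g • p = p)
    {c₀ : P} (h₀ : c₀ ∈ l) : (EA hC l c₀ h₀).Normal := by
  constructor
  intro e he g
  obtain ⟨c, hc, hP⟩ := (mem_EA hC).1 he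
  exact (mem_EA hC).2 ⟨c, hc, TaskPP.pconj hC (hax g) hc hP⟩

/-- a group of homologies with centre `z` acts without fixed elements on a normalized group of
elations -/
theorem hom_dvd (hC : Col G P L) {l : L} {c₀ : P} (h₀ : c₀ ∈ l) (H Q : Subgroup G) {z : P}
    (hz : z ∉ l) (hH : ∀ g ∈ H, g • z = z) (hQ : Q ≤ EA hC l c₀ h₀)
    (hn : ∀ g ∈ H, ∀ x ∈ Q, g * x * g⁻¹ ∈ Q) (hax : ∀ (g : G) (p : P), p ∈ l → g • p = p) :
    Nat.card H ∣ Nat.card Q - 1 := by
  classical
  have i1 : Fintype G := Fintype.ofFinite G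
  have h1 := TaskCount.semireg (G := ConjAct G) (X := G)
    (H.map (ConjAct.toConjAct (G := G)).toMonoidHom) {x : G | x ∈ Q ∧ x ≠ 1} (by
      rintro g hg x ⟨hx, hx1⟩
      obtain ⟨k, hk, rfl⟩ := Subgroup.mem_map.1 hg
      refine ⟨?_, ?_⟩
      · rw [ConjAct.smul_def]
        exact hn k hk x hx
      · rw [ConjAct.smul_def]
        intro h
        exact hx1 (conj_eq_one_iff.1 h)) (by
      rintro g hg x ⟨hx, hx1⟩ h2
      obtain ⟨k, hk, rfl⟩ := Subgroup.mem_map.1 hg
      rw [ConjAct.smul_def] at h2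
      have h3 : k * x = x * k := mul_inv_eq_iff_eq_mul.1 h2
      by_contra hk1
      have hk1' : k ≠ 1 := by
        rintro rfl
        exact hk1 (map_one _)
      have h4 : k • x • z = x • z := by
        rw [← mul_smul, h3, mul_smul, hH k hk]
      have h5 : x • z ∉ l := off_axis hax hz x
      have h6 := centre_unique hC hax hk1' h5 hz h4 (hH k hk)
      obtain ⟨c, hc, hP⟩ := (mem_EA hC).1 (hQ hx)
      exact hx1 (TaskCount.fix_mem TaskFix.taskFix hC hc hP hz h6))
  have h2 : Nat.card (H.map (ConjAct.toConjAct (G := G)).toMonoidHom) = Nat.card H :=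
    Subgroup.card_map_of_injective (ConjAct.toConjAct (G := G)).injective
  have h3 : Nat.card {x : G | x ∈ Q ∧ x ≠ 1} = Nat.card Q - 1 := by
    have h4 : Nat.card {x : G | x ∈ Q ∧ x ≠ 1} =
        ((univ.filter (fun x : G => x ∈ Q)).erase 1).card := by
      rw [Nat.card_eq_fintype_card, Fintype.card_ofFinset]
      congr 1
      ext x
      simp [and_comm]
    rw [h4, Finset.card_erase_of_mem (by simp), Nat.card_eq_fintype_card (α := Q),
      Fintype.card_subtype]
  rw [h2, h3] at h1
  exact h1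

/-- the order of a group of homologies divides `q ^ b - 1` for the prime powers `q ^ b` exactly
dividing the order of the group of elations -/
theorem index_dvd (hC : Col G P L) {l : L} (hax : ∀ (g : G) (p : P), p ∈ l → g • p = p)
    {c₀ : P} (h₀ : c₀ ∈ l) (q : ℕ) (hq : q.Prime) :
    (EA hC l c₀ h₀).index ∣ q ^ (Nat.card (EA hC l c₀ h₀)).factorization q - 1 := by
  classical
  have : Fact q.Prime := ⟨hq⟩
  set E := EA hC l c₀ h₀ with hEdef
  have hEn : E.Normal := EA_normal hC hax h₀
  by_cases hE : E = ⊤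
  · rw [hE, Subgroup.index_top]
    exact one_dvd _
  obtain ⟨Q⟩ : Nonempty (Sylow q E) := inferInstance
  set Q' : Subgroup G := (Q : Subgroup E).map E.subtype with hQ'
  set N := Subgroup.normalizer (Q' : Set G) with hN
  have hfr : N ⊔ E = ⊤ := Sylow.normalizer_sup_eq_top Q
  have hidx : E.relIndex N = E.index := by
    rw [← Subgroup.relIndex_top_right, ← hfr, Subgroup.relIndex_sup_right]
  have hCN : Col N P L := col_sub hC N
  have haxN : ∀ (g : N) (p : P), p ∈ l → g • p = p := fun g p hp => hax g.1 p hp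
  have hEN : EA hCN l c₀ h₀ = E.subgroupOf N := by
    ext g
    rw [mem_EA, Subgroup.mem_subgroupOf, hEdef, mem_EA]
    constructor
    · rintro ⟨c, hc, hP⟩
      exact ⟨c, hc, ⟨hP.ax, hP.ce⟩⟩
    · rintro ⟨c, hc, hP⟩
      exact ⟨c, hc, ⟨hP.ax, hP.ce⟩⟩
  have hne : ∃ g : N, g ∉ EA hCN l c₀ h₀ := by
    by_contra hcon
    push Not at hcon
    apply hE
    rw [← Subgroup.index_eq_one, ← hidx, Subgroup.relIndex_eq_one]
    intro g hg
    have := hcon ⟨g, hg⟩
    rw [hEN, Subgroup.mem_subgroupOf] at this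
    exact this
  obtain ⟨z, hz, hcard⟩ := hom_stab hCN haxN h₀ hne
  have h1 : Nat.card (stabilizer N z) = E.index := by
    have h2 := (EA hCN l c₀ h₀).card_mul_index
    rw [← hcard, mul_comm] at h2
    have h3 : (EA hCN l c₀ h₀).index = E.index := by
      rw [hEN]
      exact hidx
    have h4 : 0 < Nat.card (EA hCN l c₀ h₀) := Nat.card_pos
    have h5 := Nat.eq_of_mul_eq_mul_right h4 h2
    rw [← h5, h3]
  set H : Subgroup G := (stabilizer N z).map N.subtype with hH
  have hcH : Nat.card H = E.index := by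
    rw [← h1]
    exact Subgroup.card_map_of_injective N.subtype_injective
  have hcQ : Nat.card Q' = q ^ (Nat.card E).factorization q := by
    rw [← Sylow.card_eq_multiplicity Q]
    exact Subgroup.card_map_of_injective E.subtype_injective
  rw [← hcH, ← hcQ]
  refine hom_dvd hC h₀ H Q' hz ?_ ?_ ?_ hax
  · intro g hg
    obtain ⟨k, hk, rfl⟩ := Subgroup.mem_map.1 hg
    exact mem_stabilizer_iff.1 hk
  · intro x hx
    obtain ⟨k, -, rfl⟩ := Subgroup.mem_map.1 hx
    exact k.2
  · intro g hg x hx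
    obtain ⟨k, -, rfl⟩ := Subgroup.mem_map.1 hg
    exact (Subgroup.mem_normalizer_iff.1 k.2 x).1 hx

end

end Pool.Agent.H180.Pp
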