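import Mathlib

set_option autoImplicit false

/-!
# Arithmetic for perspectivity groups
-/

namespace Pool.Agent.H180.Pp

theorem cast_eq_one {h a : ℕ} (ha : 1 ≤ a) (hd : h ∣ a - 1) : (a : ZMod h) = 1 := by
  have h1 : ((a - 1 : ℕ) : ZMod h) = 0 := (ZMod.natCast_eq_zero_iff _ _).2 hd
  have h2 : a = (a - 1) + 1 := by omega
  rw [h2, Nat.cast_add, h1, zero_add, Nat.cast_one]

theorem dvd_of_cast {h a : ℕ} (ha : 1 ≤ a) (hd : (a : ZMod h) = 1) : h ∣ a - 1 := by
  rw [← ZMod.natCast_eq_zero_iff, Nat.cast_sub ha, hd, Nat.cast_one, sub_self]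

theorem dvd_sub_one {e h : ℕ} (he : 0 < e)
    (hq : ∀ q : ℕ, q.Prime → q ∣ e → h ∣ q ^ e.factorization q - 1) : h ∣ e - 1 := by
  refine dvd_of_cast he ?_
  conv_lhs => rw [← Nat.prod_factorization_pow_eq_self he.ne']
  rw [Finsupp.prod, Nat.cast_prod]
  refine Finset.prod_eq_one fun q hqs => ?_
  have h1 : q ∈ e.primeFactors := by
    rwa [Nat.support_factorization] at hqs
  exact cast_eq_one (Nat.one_le_pow _ _ (Nat.prime_of_mem_primeFactors h1).pos)
    (hq q (Nat.prime_of_mem_primeFactors h1) (Nat.dvd_of_mem_primeFactors h1))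

/-- a number which is not a prime power has a small prime power component -/
theorem exists_small {n : ℕ} (hn : 1 < n) (hpp : ¬ IsPrimePow n) :
    ∃ p : ℕ, p.Prime ∧ p ∣ n ∧ (p ^ n.factorization p) ^ 2 < n := by
  have hp := Nat.minFac_prime hn.ne'
  have hpn := Nat.minFac_dvd n
  set p := n.minFac with hpdef
  have hA := Nat.ordProj_mul_ordCompl_eq_self n p
  set A := p ^ n.factorization p with hAdef
  set B := n / A with hB
  have hA0 : 0 < A := by rw [hAdef]; exact Nat.pow_pos hp.pos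
  have hB0 : 0 < B := by
    rcases Nat.eq_zero_or_pos B with h | h
    · rw [h, mul_zero] at hA
      omega
    · exact h
  have hv : n.factorization p ≠ 0 := by
    have := (hp.factorization_pos_of_dvd (by omega) hpn)
    omega
  have hB1 : B ≠ 1 := by
    intro h
    rw [h, mul_one] at hA
    apply hpp
    rw [← hA, hAdef]
    exact hp.isPrimePow.pow hv
  have hcop : Nat.Coprime A B := by
    rw [hAdef, hB]
    exact (Nat.coprime_ordCompl hp (by omega)).pow_left _
  rcases lt_trichotomy A B with hlt | heq | hgt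
  · refine ⟨p, hp, hpn, ?_⟩
    rw [← hAdef, pow_two]
    calc A * A < A * B := Nat.mul_lt_mul_of_pos_left hlt hA0
      _ = n := hA
  · exfalso
    rw [heq, Nat.coprime_self] at hcop
    exact hB1 hcop
  · obtain ⟨q, hq, hqB⟩ := Nat.exists_prime_and_dvd hB1
    have hqn : q ∣ n := by
      rw [← hA]
      exact dvd_mul_of_dvd_right hqB A
    refine ⟨q, hq, hqn, ?_⟩
    have h1 : q ^ n.factorization q ∣ B := by
      have h2 : q ^ n.factorization q ∣ A * B := by
        rw [hA]
        exact Nat.ordProj_dvd n q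
      have h3 : Nat.Coprime (q ^ n.factorization q) A := by
        apply Nat.Coprime.pow_left
        rw [hq.coprime_iff_not_dvd]
        intro h4
        have := Nat.dvd_gcd h4 hqB
        rw [hcop] at this
        exact hq.one_lt.ne' (Nat.dvd_one.1 this)
      exact h3.dvd_of_dvd_mul_left h2
    have h5 : q ^ n.factorization q ≤ B := Nat.le_of_dvd hB0 h1
    calc (q ^ n.factorization q) ^ 2 ≤ B ^ 2 := Nat.pow_le_pow_left h5 2
      _ = B * B := pow_two B
      _ < A * B := Nat.mul_lt_mul_of_pos_right hgt hB0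
      _ = n := hA

/-- the arithmetic of the orders -/
theorem num_main {n e h : ℕ} (hn : 1 < n) (hen : e ∣ n) (hh : h ∣ n - 1)
    (hq : ∀ q : ℕ, q.Prime → q ∣ e → h ∣ q ^ e.factorization q - 1) :
    e * h < n ∨ (e = n ∧ ∀ p : ℕ, p.Prime → p ∣ n → h ∣ p ^ n.factorization p - 1) := by
  obtain ⟨m, hm⟩ := hen
  have he : 0 < e := by
    rcases Nat.eq_zero_or_pos e with h0 | h0
    · rw [h0, zero_mul] at hm; omega
    · exact h0
  have hm0 : 0 < m := by
    rcases Nat.eq_zero_or_pos m with h0 | h0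
    · rw [h0, mul_zero] at hm; omega
    · exact h0
  by_cases hm1 : m = 1
  · right
    have : e = n := by rw [hm, hm1, mul_one]
    subst this
    exact ⟨rfl, hq⟩
  · left
    have h1 := cast_eq_one he (dvd_sub_one he hq)
    have h2 := cast_eq_one (by omega : 1 ≤ n) hh
    rw [hm, Nat.cast_mul, h1, one_mul] at h2
    have h3 := dvd_of_cast hm0 h2
    have h4 : h ≤ m - 1 := Nat.le_of_dvd (by omega) h3
    calc e * h ≤ e * (m - 1) := Nat.mul_le_mul_left _ h4
      _ < e * m := Nat.mul_lt_mul_of_pos_left (by omega) he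
      _ = n := hm.symm

theorem num_sq {n e h : ℕ} (hn : 1 < n) (hpp : ¬ IsPrimePow n) (hen : e ∣ n) (he1 : e ≠ 1)
    (hh : h ∣ n - 1) (hq : ∀ q : ℕ, q.Prime → q ∣ e → h ∣ q ^ e.factorization q - 1) :
    h ^ 2 < n := by
  obtain ⟨m, hm⟩ := hen
  have he : 0 < e := by
    rcases Nat.eq_zero_or_pos e with h0 | h0
    · rw [h0, zero_mul] at hm; omega
    · exact h0
  have hm0 : 0 < m := by
    rcases Nat.eq_zero_or_pos m with h0 | h0
    · rw [h0, mul_zero] at hm; omega
    · exact h0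
  have hde := dvd_sub_one he hq
  by_cases hm1 : m = 1
  · have : e = n := by rw [hm, hm1, mul_one]
    subst this
    obtain ⟨p, hp, hpn, hlt⟩ := exists_small hn hpp
    have h1 := hq p hp hpn
    have h2 : 0 < e.factorization p := hp.factorization_pos_of_dvd (by omega) hpn
    have h3 : 1 < p ^ e.factorization p := Nat.one_lt_pow h2.ne' hp.one_lt
    have h4 : h ≤ p ^ e.factorization p - 1 := Nat.le_of_dvd (by omega) h1
    exact lt_of_le_of_lt (Nat.pow_le_pow_left (by omega) 2) hlt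
  · have h1 := cast_eq_one he hde
    have h2 := cast_eq_one (by omega : 1 ≤ n) hh
    rw [hm, Nat.cast_mul, h1, one_mul] at h2
    have h3 := dvd_of_cast hm0 h2
    have h4 : h ≤ m - 1 := Nat.le_of_dvd (by omega) h3
    have h5 : h ≤ e - 1 := Nat.le_of_dvd (by omega) hde
    rw [pow_two, hm]
    calc h * h ≤ (e - 1) * (m - 1) := Nat.mul_le_mul h5 h4
      _ ≤ e * (m - 1) := Nat.mul_le_mul_right _ (by omega)
      _ < e * m := Nat.mul_lt_mul_of_pos_left (by omega) he

/-- the arithmetic of elementary abelian groups of elations -/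
theorem num_ela {n q k : ℕ} (hn : 1 < n) (hpp : ¬ IsPrimePow n) (hq : q.Prime) (hqn : q ∣ n)
    (hk : ¬ q ^ k ∣ n) (hle : (n + 1) * (q ^ (k - n.factorization q) - 1) + 1 ≤ q ^ k) : False := by
  have hA := Nat.ordProj_mul_ordCompl_eq_self n q
  set a := n.factorization q with ha
  set m := n / q ^ a with hm
  have hak : a < k := by
    by_contra hcon
    push Not at hcon
    apply hk
    exact (pow_dvd_pow q hcon).trans (Nat.ordProj_dvd n q)
  have hv : a ≠ 0 := by
    have := (hq.factorization_pos_of_dvd (by omega) hqn)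
    omega
  have hm0 : m ≠ 0 := by
    intro h
    rw [h, mul_zero] at hA
    omega
  have hm1 : m ≠ 1 := by
    intro h
    rw [h, mul_one] at hA
    apply hpp
    rw [← hA]
    exact hq.isPrimePow.pow hv
  obtain ⟨j, rfl⟩ : ∃ j, k = a + (j + 1) := ⟨k - a - 1, by omega⟩
  obtain ⟨i, hi⟩ : ∃ i, m = i + 2 := Nat.exists_eq_add_of_le' ((Nat.two_le_iff m).2 ⟨hm0, hm1⟩)
  have h1 : a + (j + 1) - a = j + 1 := by omega
  rw [h1, ← hA, hi] at hle
  have h2 : q ^ (a + (j + 1)) = q ^ a * q ^ (j + 1) := pow_add _ _ _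
  rw [h2] at hle
  have hq2 : 2 ≤ q := hq.two_le
  have h3 : 2 ≤ q ^ (j + 1) := by
    calc 2 ≤ q := hq2
      _ = q ^ 1 := (pow_one q).symm
      _ ≤ q ^ (j + 1) := Nat.pow_le_pow_right hq.pos (by omega)
  have h4 : 1 ≤ q ^ a := Nat.one_le_pow _ _ hq.pos
  obtain ⟨t, ht⟩ : ∃ t, q ^ (j + 1) = t + 2 := ⟨q ^ (j + 1) - 2, by omega⟩
  rw [ht] at hle
  have h5 : t + 2 - 1 = t + 1 := by omega
  rw [h5] at hle
  nlinarith [Nat.zero_le (q ^ a * i * t), Nat.zero_le (q ^ a * i), Nat.zero_le (q ^ a * t)]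

end Pool.Agent.H180.Pp
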