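import Mathlib
import Pool.Agent.H180.Pp.Axis
import Pool.Agent.H180.Pp.Num

set_option autoImplicit false
set_option linter.unusedSectionVars false

/-!
# The order of a group of perspectivities with a common axis
-/

namespace Pool.Agent.H180.Pp

open Configuration Configuration.ProjectivePlane Finset MulAction Pool.Agent.H634R3.PPC
  Pool.Agent.H634R3.WG Pool.Agent.TH56.TO

section

variable {G P L : Type} [Group G] [Finite G] [Fintype P] [Fintype L] [Membership P L]
  [ProjectivePlane P L] [MulAction G P] [MulAction G L]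

/-- an elation with prime order -/
theorem exists_sp {c : P} {l : L} (hc : c ∈ l) {e : G} (he : Persp e c l) (he1 : e ≠ 1) :
    ∃ q : ℕ, q.Prime ∧ Sp q G c l := by
  have h1 : orderOf e ≠ 1 := by
    rw [Ne, orderOf_eq_one_iff]
    exact he1
  have hq := Nat.minFac_prime h1
  refine ⟨(orderOf e).minFac, hq, hc, e ^ (orderOf e / (orderOf e).minFac), ?_, ?_, ?_⟩
  · intro h
    have h2 := orderOf_dvd_of_pow_eq_one h
    have h3 : 0 < orderOf e := orderOf_pos e
    have h4 : orderOf e / (orderOf e).minFac < orderOf e := Nat.div_lt_self h3 hq.one_lt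
    have h5 : 0 < orderOf e / (orderOf e).minFac := Nat.div_pos (Nat.minFac_le h3) hq.pos
    exact absurd (Nat.le_of_dvd h5 h2) (by omega)
  · rw [← pow_mul, Nat.div_mul_cancel (Nat.minFac_dvd _)]
    exact pow_orderOf_eq_one e
  · exact Main.Persp.pow he _

open Classical in
/-- number of lines through a point of `l` different from `l` -/
theorem card_lines_ne (l : L) {x : P} (hx : x ∈ l) :
    Nat.card {m : L | x ∈ m ∧ m ≠ l} = order P L := by
  have h4 : Nat.card {m : L | x ∈ m ∧ m ≠ l} =
      ((univ.filter (fun m : L => x ∈ m)).erase l).card := by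
    rw [Nat.card_eq_fintype_card, Fintype.card_ofFinset]
    congr 1
    ext m
    simp [and_comm]
  rw [h4, Finset.card_erase_of_mem (by simpa using hx), card_lines_through]
  simp

/-- the order of the group of elations with a given axis and its subgroups with given centre -/
theorem card_EA_fac (hC : Col G P L) {l : L} {c₀ : P} (h₀ : c₀ ∈ l) {x : P} (hx : x ∈ l) :
    ∃ k, Nat.card (EA hC l c₀ h₀) = Nat.card {g : G // Persp g x l} * k ∧ k ∣ order P L := by
  obtain ⟨k, hk1, hk2⟩ := semi (X := L) (EA hC l c₀ h₀) {m : L | x ∈ m ∧ m ≠ l} (by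
    rintro g hg m ⟨hm, hml⟩
    obtain ⟨c, hc, hP⟩ := (mem_EA hC).1 hg
    refine ⟨?_, ?_⟩
    · have := (hC.inc g x m).2 hm
      rwa [hP.ax x hx] at this
    · intro h
      have hl : g • l = l := hP.ce l hc
      exact hml (MulAction.injective g (h.trans hl.symm))) (Nat.card {g : G // Persp g x l}) (by
    rintro m ⟨hm, hml⟩
    exact stab_line hC hx hm hml h₀) (by
    obtain ⟨m, hm, hml, -⟩ := exists_line_ne_ne x l l
    exact ⟨m, hm, hml⟩)
  rw [card_lines_ne l hx] at hk2
  exact ⟨k, hk1, hk2⟩

/-- if the order of the plane is not a prime power, the order of a group of elations with a common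
axis divides the order of the plane -/
theorem card_EA_dvd (hC : Col G P L) (hpp : ¬ IsPrimePow (order P L)) {l : L} {c₀ : P}
    (h₀ : c₀ ∈ l) : Nat.card (EA hC l c₀ h₀) ∣ order P L := by
  classical
  have hn := one_lt_order P L
  by_cases H : ∃ c d : P, c ≠ d ∧ c ∈ l ∧ d ∈ l ∧ (∃ e : G, e ≠ 1 ∧ Persp e c l) ∧
      ∃ f : G, f ≠ 1 ∧ Persp f d l
  · obtain ⟨c, d, hcd, hc, hd, ⟨e, he1, he⟩, f, hf1, hf⟩ := H
    obtain ⟨q, hq, hSp⟩ := exists_sp hc he he1
    have hSp2 := hSp
    obtain ⟨-, e', he1', heq', he'⟩ := hSp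
    have hSp' : Sp q G d l := ⟨hd, f, hf1, exp_q hC hc hd hcd he' hf he1' heq', hf⟩
    obtain ⟨k, hk⟩ := card_EA_pow hC hq hSp2 hSp' hcd h₀
    have hqf : Fact q.Prime := ⟨hq⟩
    have hqn : q ∣ order P L := by
      have h1 : q ∣ Nat.card {g : G // Persp g c l} := by
        have h2 : orderOf (⟨e', he'⟩ : TaskPP.EE G c l) = q := by
          refine orderOf_eq_prime (Subtype.ext heq') ?_
          intro h
          exact he1' (congrArg Subtype.val h)
        rw [← h2]
        exact orderOf_dvd_natCard _
      exact h1.trans (TaskCount.dvd_order TaskFix.taskFix hC hc)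
    by_contra hcon
    rw [hk] at hcon
    have key : ∀ x : P, x ∈ l →
        q ^ (k - (order P L).factorization q) ≤ Nat.card {g : G // Persp g x l} := by
      intro x hx
      obtain ⟨t, ht1, ht2⟩ := card_EA_fac hC h₀ hx
      rw [hk] at ht1
      have h1 : t ∣ q ^ k := ⟨_, by rw [ht1]; ring⟩
      obtain ⟨i, hi, rfl⟩ := (Nat.dvd_prime_pow hq).1 h1
      have h2 : i ≤ (order P L).factorization q :=
        (hq.pow_dvd_iff_le_factorization (by omega)).1 ht2
      have h3 : q ^ k = q ^ (k - i) * q ^ i := by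
        rw [← pow_add]
        congr 1
        omega
      have h4 : Nat.card {g : G // Persp g x l} = q ^ (k - i) := by
        have h5 : 0 < q ^ i := Nat.pow_pos hq.pos
        exact Nat.eq_of_mul_eq_mul_right h5 (by rw [← ht1, h3])
      rw [h4]
      exact Nat.pow_le_pow_right hq.pos (by omega)
    have hcard := card_EA hC l c₀ h₀
    rw [hk] at hcard
    have hsum : (order P L + 1) * (q ^ (k - (order P L).factorization q) - 1) ≤
        ∑ c ∈ univ.filter (fun c : P => c ∈ l), (Nat.card {g : G // Persp g c l} - 1) := by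
      have h6 : ∑ c ∈ univ.filter (fun c : P => c ∈ l),
          (q ^ (k - (order P L).factorization q) - 1) =
          (order P L + 1) * (q ^ (k - (order P L).factorization q) - 1) := by
        rw [Finset.sum_const, card_points_on, smul_eq_mul]
      rw [← h6]
      refine Finset.sum_le_sum fun x hx => ?_
      have hx' : x ∈ l := by simpa using hx
      exact Nat.sub_le_sub_right (key x hx') 1
    exact num_ela hn hpp hq hqn hcon (by omega)
  · push Not at H
    by_cases hE : ∃ g : G, g ≠ 1 ∧ g ∈ EA hC l c₀ h₀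
    · obtain ⟨g, hg1, hg⟩ := hE
      obtain ⟨c, hc, hP⟩ := (mem_EA hC).1 hg
      have h1 : Nat.card (EA hC l c₀ h₀) = Nat.card {g : G // Persp g c l} := by
        refine Nat.card_congr (Equiv.subtypeEquivRight fun f => ?_)
        constructor
        · intro hf
          obtain ⟨d, hd, hPf⟩ := (mem_EA hC).1 hf
          by_cases hf1 : f = 1
          · rw [hf1]
            exact TaskCount.persp_one c l
          · by_cases hcd : c = d
            · rw [hcd]
              exact hPf
            · exact absurd hPf (H c d hcd hc hd ⟨g, hg1, hP⟩ f hf1)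
        · intro hf
          exact (mem_EA hC).2 ⟨c, hc, hf⟩
      rw [h1]
      exact TaskCount.dvd_order TaskFix.taskFix hC hc
    · push Not at hE
      have h1 : EA hC l c₀ h₀ = ⊥ := by
        rw [eq_bot_iff]
        intro g hg
        by_contra hg1
        exact hE g hg1 hg
      rw [h1]
      simp

open Classical in
/-- the order of a group of homologies with a common centre -/
theorem stab_dvd (hC : Col G P L) {l : L} (hax : ∀ (g : G) (p : P), p ∈ l → g • p = p) {z : P}
    (hz : z ∉ l) : Nat.card (stabilizer G z) ∣ order P L - 1 := by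
  obtain ⟨x, hx, -⟩ := exists_ne_ne (P := P) l z z
  have hzx : z ≠ x := fun h => hz (h ▸ hx)
  have hm := HasLines.mkLine_ax (P := P) (L := L) hzx
  set m : L := HasLines.mkLine hzx with hmdef
  have hml : m ≠ l := fun h => hz (h ▸ hm.1)
  have hfixm : ∀ g ∈ stabilizer G z, g • m = m := by
    intro g hg
    rw [mem_stabilizer_iff] at hg
    have h1 : z ∈ g • m := by
      have := (hC.inc g z m).2 hm.1
      rwa [hg] at this
    have h2 : x ∈ g • m := by
      have := (hC.inc g x m).2 hm.2
      rwa [hax g x hx] at this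
    exact (Nondegenerate.eq_or_eq h1 h2 hm.1 hm.2).resolve_left hzx
  have h1 := TaskCount.semireg (stabilizer G z) {p : P | p ∈ m ∧ p ≠ z ∧ p ≠ x} (by
    rintro g hg p ⟨hp, hpz, hpx⟩
    refine ⟨?_, ?_, ?_⟩
    · have := (hC.inc g p m).2 hp
      rwa [hfixm g hg] at this
    · intro h
      exact hpz (MulAction.injective g (h.trans (mem_stabilizer_iff.1 hg).symm))
    · intro h
      exact hpx (MulAction.injective g (h.trans (hax g x hx).symm))) (by
    rintro g hg p ⟨hp, hpz, hpx⟩ h
    by_contra hg1
    have hpl : p ∉ l := fun h2 => hml ((Nondegenerate.eq_or_eq hp hm.2 h2 hx).resolve_left hpx)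
    exact hpz (centre_unique hC hax hg1 hpl hz h (mem_stabilizer_iff.1 hg)))
  have h2 : Nat.card {p : P | p ∈ m ∧ p ≠ z ∧ p ≠ x} = order P L - 1 := by
    have h4 : Nat.card {p : P | p ∈ m ∧ p ≠ z ∧ p ≠ x} =
        (((univ.filter (fun p : P => p ∈ m)).erase z).erase x).card := by
      rw [Nat.card_eq_fintype_card, Fintype.card_ofFinset]
      congr 1
      ext p
      simp only [Finset.mem_filter, Finset.mem_univ, true_and, Finset.mem_erase]
      show (p ∈ m ∧ p ≠ z ∧ p ≠ x) ↔ p ≠ x ∧ p ≠ z ∧ p ∈ m
      tauto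
    rw [h4, Finset.card_erase_of_mem (by simpa using ⟨Ne.symm hzx, hm.2⟩),
      Finset.card_erase_of_mem (by simpa using hm.1), card_points_on]
    omega
  rwa [h2] at h1

/-- the index of the elations divides `n - 1` -/
theorem index_dvd_sub (hC : Col G P L) {l : L} (hax : ∀ (g : G) (p : P), p ∈ l → g • p = p)
    {c₀ : P} (h₀ : c₀ ∈ l) : (EA hC l c₀ h₀).index ∣ order P L - 1 := by
  by_cases hE : ∃ g : G, g ∉ EA hC l c₀ h₀
  · obtain ⟨z, hz, hcard⟩ := hom_stab hC hax h₀ hE
    have h2 := (EA hC l c₀ h₀).card_mul_index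
    rw [← hcard, mul_comm] at h2
    have h4 : 0 < Nat.card (EA hC l c₀ h₀) := Nat.card_pos
    have h5 := Nat.eq_of_mul_eq_mul_right h4 h2
    rw [h5]
    exact stab_dvd hC hax hz
  · push Not at hE
    have : EA hC l c₀ h₀ = ⊤ := by
      rw [eq_top_iff]
      intro g _
      exact hE g
    rw [this, Subgroup.index_top]
    exact one_dvd _

/-- **The order of a group of perspectivities with a common axis.** -/
theorem axis_group (hC : Col G P L) (hpp : ¬ IsPrimePow (order P L)) {l : L}
    (hax : ∀ (g : G) (p : P), p ∈ l → g • p = p) {c₀ : P} (h₀ : c₀ ∈ l) :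
    Nat.card G < order P L ∨ (Nat.card (EA hC l c₀ h₀) = order P L ∧
      ∀ p : ℕ, p.Prime → p ∣ order P L →
        (EA hC l c₀ h₀).index ∣ p ^ (order P L).factorization p - 1) := by
  have h1 := num_main (one_lt_order P L) (card_EA_dvd hC hpp h₀) (index_dvd_sub hC hax h₀)
    (fun q hq _ => index_dvd hC hax h₀ q hq)
  rwa [Subgroup.card_mul_index] at h1

/-- the index of the group of elations is small if there are elations -/
theorem axis_index (hC : Col G P L) (hpp : ¬ IsPrimePow (order P L)) {l : L}
    (hax : ∀ (g : G) (p : P), p ∈ l → g • p = p) {c₀ : P} (h₀ : c₀ ∈ l)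
    (h1 : EA hC l c₀ h₀ ≠ ⊥) : (EA hC l c₀ h₀).index ^ 2 < order P L :=
  num_sq (one_lt_order P L) hpp (card_EA_dvd hC hpp h₀)
    (fun h => h1 (Subgroup.card_eq_one.1 h)) (index_dvd_sub hC hax h₀)
    (fun q hq _ => index_dvd hC hax h₀ q hq)

/-- the order of a group of perspectivities with a common axis is less than `n ^ (3 / 2)` -/
theorem axis_sq (hC : Col G P L) (hpp : ¬ IsPrimePow (order P L)) {l : L}
    (hax : ∀ (g : G) (p : P), p ∈ l → g • p = p) {c₀ : P} (h₀ : c₀ ∈ l) :
    Nat.card G ^ 2 < order P L ^ 3 := by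
  have hn := one_lt_order P L
  rcases axis_group hC hpp hax h₀ with h | ⟨h, -⟩
  · calc Nat.card G ^ 2 < order P L ^ 2 := Nat.pow_lt_pow_left h (by norm_num)
      _ ≤ order P L ^ 3 := Nat.pow_le_pow_right (by omega) (by norm_num)
  · have h1 : EA hC l c₀ h₀ ≠ ⊥ := by
      intro h2
      rw [h2] at h
      simp at h
      omega
    have h2 := axis_index hC hpp hax h₀ h1
    rw [← (EA hC l c₀ h₀).card_mul_index, h, mul_pow]
    calc order P L ^ 2 * (EA hC l c₀ h₀).index ^ 2 < order P L ^ 2 * order P L :=
          Nat.mul_lt_mul_of_pos_left h2 (by positivity)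
      _ = order P L ^ 3 := by ring

end

end Pool.Agent.H180.Pp
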