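import Mathlib
import Pool.Agent.H180.Pp.Grp

set_option autoImplicit false
set_option linter.unusedSectionVars false

/-!
# Axes with many perspectivities
-/

namespace Pool.Agent.H180.Pp

open Configuration Configuration.ProjectivePlane Finset MulAction Pool.Agent.H634R3.PPC
  Pool.Agent.H634R3.WG Pool.Agent.TH56.TO

/-- the group of all elements of `G` that fix all points on `l` -/
def AxG (G : Type) {P L : Type} [Group G] [Membership P L] [MulAction G P] (l : L) :
    Subgroup G where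
  carrier := {g | ∀ p : P, p ∈ l → g • p = p}
  mul_mem' := fun {a b} ha hb p hp => by rw [mul_smul, hb p hp, ha p hp]
  one_mem' := fun p _ => one_smul _ p
  inv_mem' := fun {a} ha p hp => by rw [inv_smul_eq_iff, ha p hp]

section

variable {G P L : Type} [Group G] [Finite G] [Fintype P] [Fintype L] [Membership P L]
  [ProjectivePlane P L] [MulAction G P] [MulAction G L]

theorem mem_AxG {l : L} {g : G} : g ∈ AxG (P := P) G l ↔ ∀ p : P, p ∈ l → g • p = p := Iff.rfl

theorem ela_cases (hC : Col G P L) {l : L} {c₀ : P} (h₀ : c₀ ∈ l) :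
    (∃ c : P, c ∈ l ∧ ∀ g ∈ EA hC l c₀ h₀, Persp g c l) ∨
      ∃ q k : ℕ, q.Prime ∧ Nat.card (EA hC l c₀ h₀) = q ^ k := by
  by_cases H : ∃ c d : P, c ≠ d ∧ c ∈ l ∧ d ∈ l ∧ (∃ e : G, e ≠ 1 ∧ Persp e c l) ∧
      ∃ f : G, f ≠ 1 ∧ Persp f d l
  · right
    obtain ⟨c, d, hcd, hc, hd, ⟨e, he1, he⟩, f, hf1, hf⟩ := H
    obtain ⟨q, hq, hSp⟩ := exists_sp hc he he1
    have hSp2 := hSp
    obtain ⟨-, e', he1', heq', he'⟩ := hSp
    have hSp' : Sp q G d l := ⟨hd, f, hf1, exp_q hC hc hd hcd he' hf he1' heq', hf⟩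
    obtain ⟨k, hk⟩ := card_EA_pow hC hq hSp2 hSp' hcd h₀
    exact ⟨q, k, hq, hk⟩
  · left
    push Not at H
    by_cases hE : ∃ g : G, g ≠ 1 ∧ g ∈ EA hC l c₀ h₀
    · obtain ⟨g, hg1, hg⟩ := hE
      obtain ⟨c, hc, hP⟩ := (mem_EA hC).1 hg
      refine ⟨c, hc, fun f hf => ?_⟩
      obtain ⟨d, hd, hPf⟩ := (mem_EA hC).1 hf
      by_cases hf1 : f = 1
      · rw [hf1]
        exact TaskCount.persp_one c l
      · by_cases hcd : c = d
        · rw [hcd]
          exact hPf
        · exact absurd hPf (H c d hcd hc hd ⟨g, hg1, hP⟩ f hf1)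
    · push Not at hE
      refine ⟨c₀, h₀, fun g hg => ?_⟩
      by_cases hg1 : g = 1
      · rw [hg1]
        exact TaskCount.persp_one c₀ l
      · exact absurd hg (hE g hg1)

/-- all elations with centre `c` and axis `l` -/
def Full (G : Type) {P L : Type} [Group G] [Membership P L] [MulAction G P] [MulAction G L]
    [ProjectivePlane P L] (c : P) (l : L) : Prop :=
  c ∈ l ∧ Nat.card {g : G // Persp g c l} = order P L

theorem Full.smul (hC : Col G P L) {c : P} {l : L} (h : Full G c l) (g : G) :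
    Full G (g • c) (g • l) :=
  ⟨(hC.inc g c l).2 h.1, by rw [card_persp_smul hC g c l]; exact h.2⟩

theorem Full.exists_ne {c : P} {l : L} (h : Full G c l) : ∃ g : G, g ≠ 1 ∧ Persp g c l := by
  have h1 := h.2
  have h2 := one_lt_order P L
  rw [← h1] at h2
  obtain ⟨a, b, hab⟩ := Finite.one_lt_card_iff_nontrivial.1 h2
  by_cases ha : a.1 = 1
  · exact ⟨b.1, fun hb => hab (Subtype.ext (ha.trans hb.symm)), b.2⟩
  · exact ⟨a.1, ha, a.2⟩

/-- an axis has only one centre with all elations -/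
theorem full_centre (hC : Col G P L) (hpp : ¬ IsPrimePow (order P L)) {c d : P} {l : L}
    (h : Full G c l) (h' : Full G d l) : c = d := by
  by_contra hcd
  obtain ⟨e, he1, he⟩ := h.exists_ne
  obtain ⟨f, hf1, hf⟩ := h'.exists_ne
  rcases ela_cases hC (l := l) h.1 with ⟨c', hc', h1⟩ | ⟨q, k, hq, hk⟩
  · have h2 := h1 e ((mem_EA hC).2 ⟨c, h.1, he⟩)
    have h3 := h1 f ((mem_EA hC).2 ⟨d, h'.1, hf⟩)
    by_cases hcc : c = c'
    · subst hcc
      exact hf1 (TaskPP.uniq TaskFix.taskFix hC h3 hf hcd)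
    · exact he1 (TaskPP.uniq TaskFix.taskFix hC h2 he (Ne.symm hcc))
  · have h4 : order P L ∣ q ^ k := by
      obtain ⟨t, ht, -⟩ := card_EA_fac hC h.1 (x := c) h.1
      rw [← hk]
      exact ⟨t, ht.trans (by rw [h.2])⟩
    obtain ⟨i, -, hi⟩ := (Nat.dvd_prime_pow hq).1 h4
    apply hpp
    rw [hi]
    refine hq.isPrimePow.pow ?_
    rintro rfl
    have := one_lt_order P L
    rw [hi] at this
    simp at this

theorem full_axis (hC : Col G P L) (hpp : ¬ IsPrimePow (order P L)) {c : P} {l m : L}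
    (h : Full G c l) (h' : Full G c m) : l = m := by
  have hpp' : ¬ IsPrimePow (order (Dual L) (Dual P)) := by
    rw [ProjectivePlane.Dual.order]
    exact hpp
  have key : ∀ k : L, Full G c k → Full (P := Dual L) (L := Dual P) G k c := by
    intro k hk
    refine ⟨hk.1, ?_⟩
    rw [ProjectivePlane.Dual.order, ← hk.2]
    exact Nat.card_congr (Equiv.subtypeEquivRight fun g => persp_dual)
  exact full_centre (P := Dual L) (L := Dual P) (col_dual hC) hpp' (key l h) (key m h')

/-- the centre of a full flag is on no other axis of a full flag -/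
theorem full_off (hC : Col G P L) (hpp : ¬ IsPrimePow (order P L)) {c d : P} {l m : L}
    (h : Full G c l) (h' : Full G d m) (hlm : l ≠ m) : d ∉ l := by
  intro hd
  have hcd : c ≠ d := by
    rintro rfl
    exact hlm (full_axis hC hpp h h')
  have hcm : c ∉ m := by
    intro hcm
    exact hlm ((Nondegenerate.eq_or_eq h.1 hd hcm h'.1).resolve_left hcd)
  obtain ⟨g, hg1, hg⟩ := h'.exists_ne
  have h1 : g • l = l := hg.ce l hd
  have h2 : g • c ≠ c := by
    intro h3
    exact hg1 (TaskCount.fix_mem TaskFix.taskFix hC h'.1 hg hcm h3)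
  have h4 := h.smul hC g
  rw [h1] at h4
  exact h2 (full_centre hC hpp h4 h)

/-- transitivity on the lines through a point of the axis -/
theorem full_trans (hC : Col G P L) {c W : P} {l m k : L} (h : Full G c l) (hWl : W ∈ l)
    (hWc : W ≠ c) (hWm : W ∈ m) (hml : m ≠ l) (hWk : W ∈ k) (hkl : k ≠ l) :
    ∃ g : G, Persp g c l ∧ g • m = k := by
  classical
  have hstab : ∀ g : G, Persp g c l → ∀ m : L, W ∈ m → m ≠ l → g • m = m → g = 1 := by
    intro g hg m hm hml' h1
    by_contra hg1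
    obtain ⟨-, h2, -⟩ := TaskFix.taskFix G P L hC g c l hg hg1
    rcases h2 m h1 with h3 | h3
    · exact hml' h3
    · exact hml' ((Nondegenerate.eq_or_eq hm h3 hWl h.1).resolve_left hWc)
  have i1 : Fintype G := Fintype.ofFinite G
  have hinj : Function.Injective (fun g : {g : G // Persp g c l} => (⟨g.1 • m, by
      refine ⟨?_, ?_⟩
      · have := (hC.inc g.1 W m).2 hWm
        rwa [g.2.ax W hWl] at this
      · intro h1
        have h2 : g.1 • l = l := g.2.ce l h.1
        exact hml (MulAction.injective g.1 (h1.trans h2.symm))⟩ : {k : L | W ∈ k ∧ k ≠ l})) := by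
    intro a b hab
    have h1 : a.1 • m = b.1 • m := congrArg Subtype.val hab
    have h2 : (b.1⁻¹ * a.1) • m = m := by rw [mul_smul, h1, inv_smul_smul]
    have h3 := hstab _ (TaskPP.pmul (TaskPP.pinv b.2) a.2) m hWm hml h2
    exact Subtype.ext (inv_mul_eq_one.1 h3).symm
  have hbij := (Fintype.bijective_iff_injective_and_card _).2 ⟨hinj, by
    rw [← Nat.card_eq_fintype_card, ← Nat.card_eq_fintype_card, h.2, card_lines_ne l hWl]⟩
  obtain ⟨g, hg⟩ := hbij.2 ⟨k, hWk, hkl⟩
  exact ⟨g.1, g.2, congrArg Subtype.val hg⟩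

/-- the axes of full flags pass through a common point -/
theorem full_pencil (hC : Col G P L) (hpp : ¬ IsPrimePow (order P L)) :
    ∃ W : P, ∀ l : L, (∃ c : P, Full G c l) → W ∈ l := by
  classical
  by_cases H : ∃ l m : L, l ≠ m ∧ (∃ c : P, Full G c l) ∧ ∃ d : P, Full G d m
  · obtain ⟨l, m, hlm, ⟨c, hc⟩, d, hd⟩ := H
    -- pencils
    have hpen : ∀ (W : P) (l m : L), l ≠ m → W ∈ l → W ∈ m → (∃ c : P, Full G c l) →
        (∃ c : P, Full G c m) → ∀ k : L, W ∈ k → ∃ c : P, Full G c k := by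
      rintro W l m hlm hWl hWm ⟨c, hc⟩ ⟨d, hd⟩ k hk
      by_cases hkl : k = l
      · exact ⟨c, hkl ▸ hc⟩
      · have hWc : W ≠ c := by
          rintro rfl
          exact full_off hC hpp hd hc (Ne.symm hlm) hWm
        obtain ⟨g, -, hg⟩ := full_trans hC hc hWl hWc hWm (Ne.symm hlm) hk hkl
        exact ⟨g • d, hg ▸ hd.smul hC g⟩
    have hW := HasPoints.mkPoint_ax (P := P) (L := L) hlm
    set W : P := HasPoints.mkPoint hlm with hWdef
    refine ⟨W, ?_⟩
    rintro k ⟨e, he⟩
    by_contra hWk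
    have hall : ∀ j : L, ∃ c : P, Full G c j := by
      intro j
      by_cases hjk : j = k
      · exact ⟨e, hjk ▸ he⟩
      · have hX := HasPoints.mkPoint_ax (P := P) (L := L) hjk
        set X : P := HasPoints.mkPoint hjk with hXdef
        have hWX : W ≠ X := fun h => hWk (h ▸ hX.2)
        have hm := HasLines.mkLine_ax (P := P) (L := L) hWX
        set t : L := HasLines.mkLine hWX with ht
        have htk : t ≠ k := fun h => hWk (h ▸ hm.1)
        have h1 := hpen W l m hlm hW.1 hW.2 ⟨c, hc⟩ ⟨d, hd⟩ t hm.1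
        exact hpen X t k htk hm.2 hX.2 h1 ⟨e, he⟩ j hX.1
    obtain ⟨j, hj, hjl, -⟩ := exists_line_ne_ne c l l
    obtain ⟨f, hf⟩ := hall j
    exact full_off hC hpp hf hc hjl hj
  · push Not at H
    by_cases H2 : ∃ l : L, ∃ c : P, Full G c l
    · obtain ⟨l, c, hc⟩ := H2
      refine ⟨c, fun m hm => ?_⟩
      by_cases hlm : l = m
      · exact hlm ▸ hc.1
      · obtain ⟨d, hd⟩ := hm
        exact absurd hd (H l m hlm ⟨c, hc⟩ d)
    · obtain ⟨W⟩ : Nonempty P := by
        obtain ⟨p, -, -, -, -⟩ := ProjectivePlane.exists_config (P := P) (L := L)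
        exact ⟨p⟩
      exact ⟨W, fun l hl => absurd ⟨l, hl⟩ H2⟩

end

end Pool.Agent.H180.Pp
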