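import Mathlib
import Pool.Agent.H180.Pp.Full

set_option autoImplicit false
set_option linter.unusedSectionVars false

/-!
# The number of perspectivities
-/

namespace Pool.Agent.H180.Pp

open Configuration Configuration.ProjectivePlane Finset MulAction Pool.Agent.H634R3.PPC
  Pool.Agent.H634R3.WG Pool.Agent.TH56.TO

section

variable {G P L : Type} [Group G] [Finite G] [Fintype P] [Fintype L] [Membership P L]
  [ProjectivePlane P L] [MulAction G P] [MulAction G L]

omit [Finite G] [Group G] [MulAction G P] [MulAction G L] [Fintype P] [Fintype L] in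
theorem exists_pt [Finite P] [Finite L] (l : L) : ∃ c : P, c ∈ l := by
  obtain ⟨q, -⟩ := Nondegenerate.exists_point (P := P) l
  obtain ⟨z, hz, -⟩ := exists_ne_ne (P := P) l q q
  exact ⟨z, hz⟩

/-- the group of perspectivities with axis `l` -/
abbrev HA (G : Type) {P L : Type} [Group G] [Membership P L] [MulAction G P] (l : L) :
    Subgroup G := AxG (P := P) G l

theorem HA_ax (l : L) : ∀ (g : HA (P := P) G l) (p : P), p ∈ l → g • p = p := fun g p hp => g.2 p hp

theorem EA_le (hC : Col G P L) {l : L} {c₀ : P} (h₀ : c₀ ∈ l) :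
    EA hC l c₀ h₀ ≤ HA (P := P) G l := by
  intro g hg
  obtain ⟨c, -, hP⟩ := (mem_EA hC).1 hg
  exact hP.ax

theorem EA_sub (hC : Col G P L) {l : L} {c₀ : P} (h₀ : c₀ ∈ l) :
    EA (col_sub hC (HA (P := P) G l)) l c₀ h₀ = (EA hC l c₀ h₀).subgroupOf (HA (P := P) G l) := by
  ext g
  rw [mem_EA, Subgroup.mem_subgroupOf, mem_EA]
  constructor
  · rintro ⟨c, hc, hP⟩
    exact ⟨c, hc, ⟨hP.ax, hP.ce⟩⟩
  · rintro ⟨c, hc, hP⟩
    exact ⟨c, hc, ⟨hP.ax, hP.ce⟩⟩

theorem card_EA_sub (hC : Col G P L) {l : L} {c₀ : P} (h₀ : c₀ ∈ l) :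
    Nat.card (EA (col_sub hC (HA (P := P) G l)) l c₀ h₀) = Nat.card (EA hC l c₀ h₀) := by
  rw [EA_sub hC]
  exact Nat.card_congr (Subgroup.subgroupOfEquivOfLe (EA_le hC h₀)).toEquiv

theorem index_EA_sub (hC : Col G P L) {l : L} {c₀ : P} (h₀ : c₀ ∈ l) :
    (EA (col_sub hC (HA (P := P) G l)) l c₀ h₀).index =
      (EA hC l c₀ h₀).relIndex (HA (P := P) G l) := by
  rw [EA_sub hC]
  rfl

theorem HA_sq (hC : Col G P L) (hpp : ¬ IsPrimePow (order P L)) (l : L) :
    Nat.card (HA (P := P) G l) ^ 2 < order P L ^ 3 := by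
  obtain ⟨c₀, h₀⟩ := exists_pt (P := P) l
  exact axis_sq (col_sub hC (HA (P := P) G l)) hpp (HA_ax l) h₀

theorem HA_cases (hC : Col G P L) (hpp : ¬ IsPrimePow (order P L)) (l : L) :
    Nat.card (HA (P := P) G l) < order P L ∨ ∃ c : P, Full G c l := by
  obtain ⟨c₀, h₀⟩ := exists_pt (P := P) l
  rcases axis_group (col_sub hC (HA (P := P) G l)) hpp (HA_ax l) h₀ with h | ⟨h, -⟩
  · exact Or.inl h
  · right
    rw [card_EA_sub hC] at h
    rcases ela_cases hC h₀ with ⟨c, hc, h1⟩ | ⟨q, k, hq, hk⟩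
    · refine ⟨c, hc, ?_⟩
      rw [← h]
      exact Nat.card_congr (Equiv.subtypeEquivRight fun g =>
        ⟨fun hg => (mem_EA hC).2 ⟨c, hc, hg⟩, fun hg => h1 g hg⟩)
    · exfalso
      apply hpp
      rw [← h, hk]
      refine hq.isPrimePow.pow ?_
      rintro rfl
      have := one_lt_order P L
      rw [← h, hk] at this
      simp at this

/-- the perspectivities with axis `a` that map `u` to `v` -/
theorem map_card (hC : Col G P L) (hpp : ¬ IsPrimePow (order P L)) {W : P} {a u v : L}
    (hWa : W ∈ a) (hWu : W ∈ u) (hWv : W ∈ v) (hau : u ≠ a) (huv : u ≠ v) :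
    Nat.card {g : G // g ∈ HA (P := P) G a ∧ g • u = v} ≤
      Nat.card {g : G // Persp g W a} * Nat.sqrt (order P L) := by
  classical
  have hn := one_lt_order P L
  have hsq : 1 ≤ Nat.sqrt (order P L) := Nat.le_sqrt.2 (by omega)
  have hK : 1 ≤ Nat.card {g : G // Persp g W a} := one_le_card_persp W a
  by_cases hS : Nonempty {g : G // g ∈ HA (P := P) G a ∧ g • u = v}
  swap
  · rw [not_nonempty_iff] at hS
    rw [Nat.card_of_isEmpty]
    exact Nat.zero_le _
  obtain ⟨g₀, hg₀, hg₀u⟩ := hS
  set H := HA (P := P) G a with hH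
  set G1 : Subgroup G := H ⊓ stabilizer G u with hG1
  set E := EA hC a W hWa with hE
  have hEH : E ≤ H := EA_le hC hWa
  have hcard : Nat.card {g : G // g ∈ H ∧ g • u = v} = Nat.card G1 := by
    refine Nat.card_congr ⟨fun g => ⟨g₀⁻¹ * g.1, ?_⟩, fun g => ⟨g₀ * g.1, ?_⟩, ?_, ?_⟩
    · refine ⟨H.mul_mem (H.inv_mem hg₀) g.2.1, ?_⟩
      show (g₀⁻¹ * g.1) • u = u
      rw [mul_smul, g.2.2, ← hg₀u, inv_smul_smul]
    · refine ⟨H.mul_mem hg₀ g.2.1, ?_⟩
      have h1 : g.1 • u = u := g.2.2
      rw [mul_smul, h1, hg₀u]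
    · intro g
      exact Subtype.ext (mul_inv_cancel_left _ _)
    · intro g
      exact Subtype.ext (inv_mul_cancel_left _ _)
  rw [hcard]
  by_cases hbot : E = ⊥
  · -- no elations: there is at most one perspectivity
    have h1 : Nat.card G1 ≤ 1 := by
      by_contra hcon
      push Not at hcon
      obtain ⟨x, y, hxy⟩ := Finite.one_lt_card_iff_nontrivial.1 hcon
      obtain ⟨k, hk1, hk⟩ : ∃ k : G, k ≠ 1 ∧ k ∈ G1 := by
        by_cases hx : x.1 = 1
        · exact ⟨y.1, fun hy => hxy (Subtype.ext (hx.trans hy.symm)), y.2⟩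
        · exact ⟨x.1, hx, x.2⟩
      have hg₀1 : g₀ ≠ 1 := by
        rintro rfl
        rw [one_smul] at hg₀u
        exact huv hg₀u
      have hCH := col_sub hC H
      have hne : ∃ g : H, g ∉ EA hCH a W hWa := by
        refine ⟨⟨k, hk.1⟩, ?_⟩
        rw [EA_sub hC, Subgroup.mem_subgroupOf]
        intro h2
        change k ∈ E at h2
        rw [hbot, Subgroup.mem_bot] at h2
        exact hk1 h2
      obtain ⟨z, hz, hst⟩ := hom_stab hCH (HA_ax a) hWa hne
      have h3 : Nat.card (EA hCH a W hWa) = 1 := by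
        rw [card_EA_sub hC]
        change Nat.card E = 1
        rw [hbot]
        simp
      rw [h3, mul_one] at hst
      have h4 : stabilizer H z = ⊤ := by
        have : Nat.card (stabilizer H z) = Nat.card H := hst
        exact Subgroup.eq_top_of_card_eq _ this
      have hfix : ∀ g ∈ H, g • z = z := by
        intro g hg
        have : (⟨g, hg⟩ : H) ∈ stabilizer H z := by rw [h4]; exact Subgroup.mem_top _
        exact mem_stabilizer_iff.1 this
      obtain ⟨c, hc⟩ := TaskAxis.taskAxis G P L hC k a hk.1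
      obtain ⟨f1, f2, -⟩ := TaskFix.taskFix G P L hC k c a hc hk1
      have hzc : z = c := (f1 z (hfix k hk.1)).resolve_right hz
      have hzu : z ∈ u := by
        rw [hzc]
        exact (f2 u hk.2).resolve_left hau
      have hzv : z ∈ v := by
        have := (hC.inc g₀ z u).2 hzu
        rwa [hfix g₀ hg₀, hg₀u] at this
      have hzW : z = W := (Nondegenerate.eq_or_eq hzu hWu hzv hWv).resolve_right huv
      exact hz (hzW ▸ hWa)
    calc Nat.card G1 ≤ 1 := h1
      _ = 1 * 1 := rfl
      _ ≤ _ := Nat.mul_le_mul hK hsq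
  · have h1 : (EA (col_sub hC H) a W hWa) ≠ ⊥ := by
      intro h2
      apply hbot
      rw [← Subgroup.card_eq_one] at h2 ⊢
      rw [card_EA_sub hC] at h2
      exact h2
    have h2 := axis_index (col_sub hC H) hpp (HA_ax a) hWa h1
    rw [index_EA_sub hC] at h2
    change (E.relIndex H) ^ 2 < order P L at h2
    have h3 : E.relIndex H ≤ Nat.sqrt (order P L) := by
      rw [Nat.le_sqrt, ← pow_two]
      exact h2.le
    have h4 : E.relIndex G1 ≤ E.relIndex H :=
      Subgroup.relIndex_le_of_le_right inf_le_left (by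
        have := Subgroup.index_ne_zero_of_finite (H := E.subgroupOf H)
        exact this)
    have h5 : Nat.card G1 = Nat.card (E.subgroupOf G1) * E.relIndex G1 :=
      (Subgroup.card_mul_index _).symm
    have h6 : Nat.card (E.subgroupOf G1) = Nat.card {g : G // Persp g W a} := by
      rw [← stab_line hC hWa hWu hau hWa]
      refine Nat.card_congr ⟨fun g => ⟨g.1.1, g.2, g.1.2.2⟩,
        fun g => ⟨⟨g.1, hEH g.2.1, g.2.2⟩, g.2.1⟩, fun g => rfl, fun g => rfl⟩
    rw [h5, h6]
    exact Nat.mul_le_mul_left _ (h4.trans h3)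

open Classical in
/-- perspectivities mapping a line to another line -/
theorem map_lines (hC : Col G P L) (hpp : ¬ IsPrimePow (order P L)) {u v : L} (huv : u ≠ v) :
    Nat.card {g : G // (∃ (c : P) (a : L), Persp g c a) ∧ g • u = v} ≤
      (2 * order P L - 2) * Nat.sqrt (order P L) := by
  have i1 : Fintype G := Fintype.ofFinite G
  have hn := one_lt_order P L
  have hW := HasPoints.mkPoint_ax (P := P) (L := L) huv
  set W : P := HasPoints.mkPoint huv with hWdef
  -- the axis
  have hax : ∀ g : G, (∃ (c : P) (a : L), Persp g c a) → g • u = v →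
      ∃ a : L, W ∈ a ∧ u ≠ a ∧ v ≠ a ∧ g ∈ HA (P := P) G a := by
    rintro g ⟨c, a, hP⟩ hgu
    have h1 : u ≠ a := by
      rintro rfl
      have hg1 : g ≠ 1 := by
        rintro rfl
        exact huv (by rw [← hgu, one_smul])
      obtain ⟨-, -, -, f4⟩ := TaskFix.taskFix G P L hC g c u hP hg1
      exact huv (by rw [← hgu, f4])
    have hX := HasPoints.mkPoint_ax (P := P) (L := L) h1
    set X : P := HasPoints.mkPoint h1
    have h2 : X ∈ v := by
      have := (hC.inc g X u).2 hX.1
      rwa [hP.ax X hX.2, hgu] at this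
    have h3 : X = W := (Nondegenerate.eq_or_eq hX.1 hW.1 h2 hW.2).resolve_right huv
    refine ⟨a, h3 ▸ hX.2, h1, ?_, hP.ax⟩
    rintro rfl
    have hg1 : g ≠ 1 := by
      rintro rfl
      exact huv (by rw [← hgu, one_smul])
    obtain ⟨-, -, -, f4⟩ := TaskFix.taskFix G P L hC g c v hP hg1
    exact huv (MulAction.injective g (hgu.trans f4.symm))
  set A : Finset L := univ.filter (fun a : L => W ∈ a ∧ u ≠ a ∧ v ≠ a) with hA
  have h1 : Nat.card {g : G // (∃ (c : P) (a : L), Persp g c a) ∧ g • u = v} ≤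
      ∑ a ∈ A, Nat.card {g : G // g ∈ HA (P := P) G a ∧ g • u = v} := by
    rw [Nat.card_eq_fintype_card, Fintype.card_subtype]
    calc (univ.filter (fun g : G => (∃ (c : P) (a : L), Persp g c a) ∧ g • u = v)).card ≤
        (A.biUnion (fun a => univ.filter (fun g : G => g ∈ HA (P := P) G a ∧ g • u = v))).card := by
          refine Finset.card_le_card ?_
          intro g hg
          rw [Finset.mem_filter] at hg
          obtain ⟨a, ha1, ha2, ha3, ha4⟩ := hax g hg.2.1 hg.2.2
          rw [Finset.mem_biUnion]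
          refine ⟨a, ?_, ?_⟩
          · rw [hA, Finset.mem_filter]
            exact ⟨Finset.mem_univ _, ha1, ha2, ha3⟩
          · rw [Finset.mem_filter]
            exact ⟨Finset.mem_univ _, ha4, hg.2.2⟩
      _ ≤ _ := by
          refine Finset.card_biUnion_le.trans (Finset.sum_le_sum fun a _ => ?_)
          rw [Nat.card_eq_fintype_card, Fintype.card_subtype]
  have h2 : ∑ a ∈ A, Nat.card {g : G // g ∈ HA (P := P) G a ∧ g • u = v} ≤
      (∑ a ∈ A, Nat.card {g : G // Persp g W a}) * Nat.sqrt (order P L) := by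
    rw [Finset.sum_mul]
    refine Finset.sum_le_sum fun a ha => ?_
    rw [hA, Finset.mem_filter] at ha
    exact map_card hC hpp ha.2.1 hW.1 hW.2 ha.2.2.1 huv
  refine h1.trans (h2.trans (Nat.mul_le_mul_right _ ?_))
  -- the number of elations
  have h3 : ∑ a ∈ A, Nat.card {g : G // Persp g W a} =
      ∑ a ∈ A, (Nat.card {g : G // Persp g W a} - 1) + A.card := by
    rw [Finset.card_eq_sum_ones, ← Finset.sum_add_distrib]
    refine Finset.sum_congr rfl fun a _ => ?_
    have := one_le_card_persp (G := G) W a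
    omega
  have h4 : A.card = order P L - 1 := by
    have h5 : A = ((univ.filter (fun m : L => W ∈ m)).erase u).erase v := by
      ext a
      simp only [hA, Finset.mem_filter, Finset.mem_univ, true_and, Finset.mem_erase]
      constructor
      · rintro ⟨a1, a2, a3⟩
        exact ⟨Ne.symm a3, Ne.symm a2, a1⟩
      · rintro ⟨a1, a2, a3⟩
        exact ⟨a3, Ne.symm a2, Ne.symm a1⟩
    rw [h5, Finset.card_erase_of_mem (by simpa using ⟨Ne.symm huv, hW.2⟩),
      Finset.card_erase_of_mem (by simpa using hW.1), card_lines_through]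
    omega
  have h6 : ∑ a ∈ A, (Nat.card {g : G // Persp g W a} - 1) ≤
      ∑ m ∈ univ.filter (fun m : L => W ∈ m), (Nat.card {g : G // Persp g W m} - 1) := by
    refine Finset.sum_le_sum_of_subset ?_
    intro a ha
    rw [hA, Finset.mem_filter] at ha
    rw [Finset.mem_filter]
    exact ⟨Finset.mem_univ _, ha.2.1⟩
  have h7 := card_EC hC W u hW.1
  have h8 : Nat.card (EC hC W u hW.1) ≤ order P L := by
    have hpp' : ¬ IsPrimePow (order (Dual L) (Dual P)) := by
      rw [ProjectivePlane.Dual.order]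
      exact hpp
    have h9 := card_EA_dvd (P := Dual L) (L := Dual P) (col_dual hC) hpp' (l := W) (c₀ := u) hW.1
    rw [ProjectivePlane.Dual.order] at h9
    rw [card_EC_eq]
    exact Nat.le_of_dvd (by omega) h9
  rw [h3, h4]
  omega

end

end Pool.Agent.H180.Pp
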